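import Mathlib
import Pool.Agent.Lib.helper23.Knaster

set_option autoImplicit false

namespace Pool.Agent.H.MP_42a2a8_gt

open Set Function Cardinal Pool.Agent.Lib.helper23

lemma sdr {I Y : Type} (A : I → Set Y) (h : ∀ i, #I ≤ #(A i)) :
    ∃ f : I → Y, Injective f ∧ ∀ i, f i ∈ A i := by
  classical
  obtain ⟨e⟩ : Nonempty ((#I).ord.ToType ≃ I) := Cardinal.eq.1 (Cardinal.mk_ord_toType _)
  have key : ∀ (w : (#I).ord.ToType) (g : ∀ v, v < w → Y), ∃ y ∈ A (e w), ∀ v hv, g v hv ≠ y := by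
    intro w g
    by_contra hc
    push Not at hc
    have h1 : A (e w) ⊆ range fun v : Iio w => g v.1 v.2 := by
      intro y hy
      obtain ⟨v, hv, e⟩ := hc y hy
      exact ⟨⟨v, hv⟩, e⟩
    have h2 := ((h _).trans (Cardinal.mk_le_mk_of_subset h1)).trans Cardinal.mk_range_le
    exact absurd (Cardinal.mk_Iio_toType_ord_lt w) (not_lt.2 h2)
  choose F hF hF' using key
  let g : (#I).ord.ToType → Y := (wellFounded_lt (α := (#I).ord.ToType)).fix F
  have hg : ∀ w, g w = F w fun v _ => g v := fun w => WellFounded.fix_eq _ _ _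
  have hne : ∀ v w, v < w → g v ≠ g w := by
    intro v w hvw
    rw [hg w]
    exact hF' w (fun v _ => g v) v hvw
  refine ⟨fun i => g (e.symm i), fun i j hij => ?_, fun i => ?_⟩
  · by_contra hn
    have : e.symm i ≠ e.symm j := fun h => hn (e.symm.injective h)
    rcases lt_or_gt_of_ne this with l | l
    · exact hne _ _ l hij
    · exact hne _ _ l hij.symm
  · have := hF (e.symm i) (fun v _ => g v)
    rw [← hg, e.apply_symm_apply] at this
    exact this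

lemma wdelta {I κ : Type} (n : ℕ) : ∀ (F : I → Finset κ) (S : Set I), S.Infinite →
    (∀ i ∈ S, (F i).card ≤ n) → ∃ S' ⊆ S, S'.Infinite ∧
      ∀ a, (∀ i ∈ S', a ∈ F i) ∨ {i | i ∈ S' ∧ a ∈ F i}.Finite := by
  classical
  induction n with
  | zero =>
    intro F S hS h
    refine ⟨S, Subset.rfl, hS, fun a => Or.inr (Set.finite_empty.subset fun i hi => ?_)⟩
    have := Finset.card_eq_zero.1 (Nat.le_zero.1 (h i hi.1))
    have h2 := hi.2
    simp [this] at h2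
  | succ n ih =>
    intro F S hS h
    by_cases h1 : ∃ k, {i | i ∈ S ∧ k ∈ F i}.Infinite
    · obtain ⟨k, hk⟩ := h1
      obtain ⟨J, hJ, hJu, hJp⟩ := ih (fun i => (F i).erase k) _ hk (fun i hi => by
        have := Finset.card_erase_of_mem hi.2
        have := h i hi.1
        omega)
      refine ⟨J, fun i hi => (hJ hi).1, hJu, fun a => ?_⟩
      by_cases e : a = k
      · exact Or.inl fun i hi => e ▸ (hJ hi).2
      · rcases hJp a with h2 | h2
        · exact Or.inl fun i hi => Finset.mem_of_mem_erase (h2 i hi)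
        · exact Or.inr (h2.subset fun i hi => ⟨hi.1, Finset.mem_erase.2 ⟨e, hi.2⟩⟩)
    · push Not at h1
      exact ⟨S, Subset.rfl, hS, fun a => Or.inr (h1 a)⟩

abbrev Al : Type := ℕ × List Bool × (ℕ → Bool) × Bool

abbrev Br (a : Al) : Type := Fin a.1 ⊕ {_n : ℕ × Bool // a.2.2.2 = true}

abbrev T : Type := WType Br

def lab : T → List Bool
  | ⟨a, _⟩ => a.2.1

def tag : T → ℕ → Bool
  | ⟨a, _⟩ => a.2.2.1

def pre : T → Set T
  | ⟨_, f⟩ => range fun i => f (Sum.inl i)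

def Fam : T → (ℕ → T) → (ℕ → T) → Prop
  | ⟨a, f⟩, p, d => ∃ h : a.2.2.2 = true, (∀ j, p j = f (Sum.inr ⟨(j, false), h⟩)) ∧
      ∀ j, d j = f (Sum.inr ⟨(j, true), h⟩)

lemma pre_fin (r : T) : (pre r).Finite := by
  obtain ⟨a, f⟩ := r
  exact finite_range _

def Sub (a r : T) : Prop := a ∈ pre r ∨ ∃ p d j, Fam r p d ∧ a = d j

lemma sub_wf : WellFounded Sub := by
  refine ⟨fun r => ?_⟩
  induction r with
  | mk a f ih =>
    refine ⟨_, fun b hb => ?_⟩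
    rcases hb with ⟨i, rfl⟩ | ⟨p, d, j, ⟨h, -, h2⟩, rfl⟩
    · exact ih _
    · rw [h2]
      exact ih _

lemma fam_fun {r : T} {p d p' d' : ℕ → T} (h : Fam r p d) (h' : Fam r p' d') : p = p' ∧ d = d' := by
  obtain ⟨a, f⟩ := r
  obtain ⟨_, h1, h2⟩ := h
  obtain ⟨_, h3, h4⟩ := h'
  exact ⟨funext fun j => (h1 j).trans (h3 j).symm, funext fun j => (h2 j).trans (h4 j).symm⟩

lemma mk_plain (L : Set T) (hL : L.Finite) (l : List Bool) (z : ℕ → Bool) :
    ∃ r, pre r = L ∧ lab r = l ∧ tag r = z ∧ ∀ p d, ¬ Fam r p d := by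
  obtain ⟨k, f, hf⟩ := hL.fin_embedding
  refine ⟨⟨(k, l, z, false), Sum.elim f fun x => absurd x.2 (by simp)⟩, hf, rfl, rfl, ?_⟩
  rintro p d ⟨h, -⟩
  simp at h

lemma mk_fam (L : Set T) (hL : L.Finite) (l : List Bool) (p d : ℕ → T) :
    ∃ r, pre r = L ∧ lab r = l ∧ Fam r p d := by
  obtain ⟨k, f, hf⟩ := hL.fin_embedding
  exact ⟨⟨(k, l, fun _ => true, true), Sum.elim f fun x => cond x.1.2 (d x.1.1) (p x.1.1)⟩,
    hf, rfl, rfl, fun _ => rfl, fun _ => rfl⟩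

lemma card_T : #T ≤ 𝔠 := by
  refine WType.cardinalMk_le_of_le ?_
  refine (Cardinal.sum_le_sum _ (fun _ => 𝔠) fun a => ?_).trans ?_
  · rw [← Cardinal.continuum_power_aleph0]
    conv_lhs => rw [Cardinal.continuum_power_aleph0]
    exact Cardinal.power_le_power_left Cardinal.continuum_ne_zero Cardinal.mk_le_aleph0
  · simp

def Le (a r : T) : Prop := Relation.ReflTransGen (fun a b => a ∈ pre b) a r

lemma Le.rfl {a : T} : Le a a := Relation.ReflTransGen.refl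

lemma Le.trans {a b c : T} (h : Le a b) (h' : Le b c) : Le a c := Relation.ReflTransGen.trans h h'

lemma Le.of_pre {a b : T} (h : a ∈ pre b) : Le a b := Relation.ReflTransGen.single h

lemma Le.cases {a r : T} (h : Le a r) : a = r ∨ ∃ b ∈ pre r, Le a b := by
  rcases Relation.ReflTransGen.cases_tail h with h | ⟨b, h1, h2⟩
  · exact Or.inl h.symm
  · exact Or.inr ⟨b, h2, h1⟩

lemma Le.sub {a b r : T} (h : Le a b) (h' : Sub b r) : Relation.TransGen Sub a r := by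
  refine Relation.TransGen.tail' ?_ h'
  clear h'
  induction h with
  | refl => exact Relation.ReflTransGen.refl
  | tail _ h2 ih => exact ih.tail (Or.inl h2)

lemma not_le_pre {r b : T} (h : b ∈ pre r) : ¬ Le r b := fun h' =>
  sub_wf.transGen.irrefl.irrefl r (h'.sub (Or.inl h))

lemma low_fin (r : T) : {a | Le a r}.Finite := by
  induction r using sub_wf.induction with
  | _ r ih =>
    refine (((pre_fin r).biUnion fun b hb => ih b (Or.inl hb)).insert r).subset fun a ha => ?_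
    rcases Le.cases ha with h | ⟨b, h1, h2⟩
    · exact Or.inl h
    · exact Or.inr (mem_biUnion h1 h2)

def Adm (p d : T) : Prop := Le p d ∧ ∀ q P D, Le q d → Fam q P D → ¬ ∀ j, Le p (D j)

def Delta (P D : ℕ → T) : Prop :=
  (∀ a, (∀ j, Le a (D j)) ∨ {j | Le a (D j)}.Finite) ∧ ∀ j, ¬ ∀ i, Le (P j) (D i)

def Good (r : T) : Prop :=
  (∀ a ∈ pre r, lab a <+: lab r) ∧
  (∀ P D, Fam r P D → Delta P D ∧ ∀ j, Adm (P j) (D j) ∧ lab (D j) <+: lab r) ∧
  (∀ q P D, Le q r → Fam q P D →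
    ∃ j, D j ∈ pre r ∧ (∀ a ∈ pre r, a ≠ D j → ¬ Le (P j) a) ∧ Adm (P j) r)

inductive Valid : T → Prop
  | mk (r : T) : Good r → (∀ a ∈ pre r, Valid a) → (∀ P D j, Fam r P D → Valid (D j)) → Valid r

lemma Valid.good {r : T} (h : Valid r) : Good r := by
  cases h
  assumption

lemma Valid.of_pre {r a : T} (h : Valid r) (ha : a ∈ pre r) : Valid a := by
  cases h with
  | mk _ _ h _ => exact h a ha

lemma Valid.of_fam {r : T} {P D : ℕ → T} (h : Valid r) (hf : Fam r P D) (j : ℕ) : Valid (D j) := by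
  cases h with
  | mk _ _ _ h => exact h P D j hf

lemma Valid.of_le {r a : T} (h : Valid r) (ha : Le a r) : Valid a ∧ lab a <+: lab r := by
  induction ha with
  | refl => exact ⟨h, List.prefix_rfl⟩
  | tail _ h2 ih => exact ⟨(ih (h.of_pre h2)).1, (ih (h.of_pre h2)).2.trans (h.good.1 _ h2)⟩

lemma Valid.root_le {q x : T} {P D : ℕ → T} (h : Valid q) (hf : Fam q P D) (hx : ∀ j, Le x (D j)) :
    Le x q := by
  obtain ⟨j, hj, -⟩ := h.good.2.2 q P D Le.rfl hf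
  exact (hx j).trans (Le.of_pre hj)

lemma Valid.adm {p : T} (h : Valid p) : Adm p p := by
  refine ⟨Le.rfl, fun q P D hq hf hp => ?_⟩
  obtain ⟨j, hj, -⟩ := h.good.2.2 q P D hq hf
  exact not_le_pre hj (hp j)

def W (L : Set T) (x : T) : Prop := ∃ a ∈ L, Le x a

def Prot (L : Set T) (p d : T) : Prop := d ∈ L ∧ Adm p d ∧ ∀ a ∈ L, a ≠ d → ¬ Le p a

def Resp (L L' : Set T) (P D : ℕ → T) : Prop := ∃ j, Prot L' (P j) (D j) ∧ ¬ W L (P j)

def St (l : List Bool) (L : Set T) : Prop := L.Finite ∧ ∀ a ∈ L, Valid a ∧ lab a <+: l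

def Ext (u : T) (L L' : Set T) : Prop :=
  L ⊆ L' ∧ (∀ p d, Prot L p d → Prot L' p d) ∧ (¬ W L u → ¬ W L' u) ∧
    ∀ q P D, W L' q → Fam q P D → W L q ∨ Resp L L' P D

lemma W.mono {L L' : Set T} {x : T} (h : W L x) (hL : L ⊆ L') : W L' x :=
  let ⟨a, ha, hx⟩ := h
  ⟨a, hL ha, hx⟩

lemma Resp.left {L0 L L' : Set T} {P D : ℕ → T} (h : Resp L L' P D) (hL : L0 ⊆ L) :
    Resp L0 L' P D :=
  let ⟨j, h1, h2⟩ := h
  ⟨j, h1, fun h => h2 (h.mono hL)⟩

lemma Resp.right {u : T} {L L' L'' : Set T} {P D : ℕ → T} (h : Resp L L' P D) (hL : Ext u L' L'') :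
    Resp L L'' P D :=
  let ⟨j, h1, h2⟩ := h
  ⟨j, hL.2.1 _ _ h1, h2⟩

lemma Ext.trans {u : T} {L L' L'' : Set T} (h : Ext u L L') (h' : Ext u L' L'') : Ext u L L'' := by
  refine ⟨h.1.trans h'.1, fun p d hp => h'.2.1 _ _ (h.2.1 _ _ hp), fun hu => h'.2.2.1 (h.2.2.1 hu),
    fun q P D hq hf => ?_⟩
  rcases h'.2.2.2 q P D hq hf with h1 | h1
  · rcases h.2.2.2 q P D h1 hf with h2 | h2
    · exact Or.inl h2
    · exact Or.inr (h2.right h')
  · exact Or.inr (h1.left h.1)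

def Proc (u : T) (l : List Bool) (q : T) : Prop :=
  ∀ L P D, St l L → W L q → Fam q P D → ∃ L', St l L' ∧ Ext u L L' ∧ Resp L L' P D

lemma many (u : T) (l : List Bool) (F : Set T) (hF : F.Finite) : (∀ q ∈ F, Proc u l q) →
    ∀ L, St l L → (∀ q ∈ F, W L q) →
      ∃ L', St l L' ∧ Ext u L L' ∧ ∀ q ∈ F, ∀ P D, Fam q P D → Resp L L' P D := by
  induction F, hF using Set.Finite.induction_on with
  | empty =>
    intro _ L hL _
    exact ⟨L, hL, ⟨Subset.rfl, fun _ _ h => h, fun h => h, fun _ _ _ h _ => Or.inl h⟩, by simp⟩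
  | @insert q F _ _ ih =>
    intro h L hL hW
    obtain ⟨L1, h1, h2, h3⟩ := ih (fun a ha => h a (Or.inr ha)) L hL fun a ha => hW a (Or.inr ha)
    by_cases hq : ∃ P D, Fam q P D
    · obtain ⟨P, D, hf⟩ := hq
      obtain ⟨L2, h4, h5, h6⟩ := h q (Or.inl rfl) L1 P D h1 ((hW q (Or.inl rfl)).mono h2.1) hf
      refine ⟨L2, h4, h2.trans h5, ?_⟩
      rintro a (rfl | ha) P' D' hf'
      · obtain ⟨rfl, rfl⟩ := fam_fun hf hf'
        exact h6.left h2.1
      · exact (h3 a ha P' D' hf').right h5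
    · refine ⟨L1, h1, h2, ?_⟩
      rintro a (rfl | ha) P' D' hf'
      · exact absurd ⟨P', D', hf'⟩ hq
      · exact h3 a ha P' D' hf'

lemma proc (u : T) (l : List Bool) (q : T) : Proc u l q := by
  induction q using sub_wf.transGen.induction with
  | _ q ih =>
    intro L P D hL hW hf
    obtain ⟨a0, ha0, hqa⟩ := hW
    obtain ⟨hq, hql⟩ := (hL.2 a0 ha0).1.of_le hqa
    obtain ⟨hΔ, hadm⟩ := hq.good.2.1 P D hf
    have hfin : (insert u (⋃ a ∈ L, {x | Le x a})).Finite :=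
      (hL.1.biUnion fun a _ => low_fin a).insert u
    have hbad : (⋃ a ∈ insert u (⋃ a ∈ L, {x | Le x a}),
        {j | Le a (D j) ∧ ¬ ∀ i, Le a (D i)}).Finite := by
      refine hfin.biUnion fun a _ => ?_
      rcases hΔ.1 a with h | h
      · exact Set.finite_empty.subset fun j hj => hj.2 h
      · exact h.subset fun j hj => hj.1
    obtain ⟨j, hj⟩ := hbad.exists_notMem
    have hj1 : ∀ a, W L a → Le a (D j) → ∀ i, Le a (D i) := by
      rintro a ⟨b, hb, hab⟩ h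
      by_contra hn
      exact hj (mem_biUnion (Or.inr (mem_biUnion hb hab)) ⟨h, hn⟩)
    have hj2 : Le u (D j) → ∀ i, Le u (D i) := by
      intro h
      by_contra hn
      exact hj (mem_biUnion (Or.inl rfl) ⟨h, hn⟩)
    have hP : ¬ W L (P j) := fun h => hΔ.2 j (hj1 _ h (hadm j).1.1)
    have hS : St l (insert (D j) L) := by
      refine ⟨hL.1.insert _, ?_⟩
      rintro a (rfl | ha)
      · exact ⟨hq.of_fam hf j, (hadm j).2.trans (hql.trans (hL.2 a0 ha0).2)⟩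
      · exact hL.2 a ha
    obtain ⟨L', h1, h2, h3⟩ := many u l _ (low_fin (D j))
      (fun a ha => ih a (Le.sub ha (Or.inr ⟨P, D, j, hf, rfl⟩))) _ hS
      (fun a ha => ⟨_, Or.inl rfl, ha⟩)
    refine ⟨L', h1, ⟨(subset_insert _ _).trans h2.1, fun p d hp => h2.2.1 _ _ ?_,
      fun hu => h2.2.2.1 ?_, fun q' P' D' hq' hf' => ?_⟩, j, h2.2.1 _ _ ?_, hP⟩
    · refine ⟨Or.inr hp.1, hp.2.1, ?_⟩
      rintro a (rfl | ha) had
      · intro hpa
        have h4 := hj1 p ⟨d, hp.1, hp.2.1.1⟩ hpa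
        by_cases e : a0 = d
        · exact hp.2.1.2 q P D (e ▸ hqa) hf h4
        · exact hp.2.2 a0 ha0 e ((hq.root_le hf h4).trans hqa)
      · exact hp.2.2 a ha had
    · rintro ⟨a, rfl | ha, h⟩
      · exact hu ⟨a0, ha0, (hq.root_le hf (hj2 h)).trans hqa⟩
      · exact hu ⟨a, ha, h⟩
    · rcases h2.2.2.2 q' P' D' hq' hf' with ⟨a, rfl | ha, h⟩ | h
      · exact Or.inr ((h3 q' h P' D' hf').left (subset_insert _ _))
      · exact Or.inl ⟨a, ha, h⟩
      · exact Or.inr (h.left (subset_insert _ _))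
    · refine ⟨Or.inl rfl, (hadm j).1, ?_⟩
      rintro a (rfl | ha) had
      · exact absurd rfl had
      · exact fun h => hP ⟨a, ha, h⟩

lemma build {r0 : T} (h0 : Valid r0) {l : List Bool} (hl : lab r0 <+: l) (u : T) :
    ∃ L, St l L ∧ r0 ∈ L ∧ (¬ Le u r0 → ¬ W L u) ∧ (∀ p, Adm p r0 → Prot L p r0) ∧
      ∀ q P D, W L q → Fam q P D → ∃ j, Prot L (P j) (D j) ∧ ¬ Le (P j) r0 := by
  obtain ⟨L, h1, h2, h3⟩ := many u l _ (low_fin r0) (fun q _ => proc u l q) {r0}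
    ⟨finite_singleton _, by rintro a rfl; exact ⟨h0, hl⟩⟩ (fun a ha => ⟨_, rfl, ha⟩)
  refine ⟨L, h1, h2.1 rfl, fun hu => h2.2.2.1 ?_, fun p hp => h2.2.1 _ _ ⟨rfl, hp, ?_⟩,
    fun q P D hq hf => ?_⟩
  · rintro ⟨a, rfl, h⟩
    exact hu h
  · rintro a rfl h
    exact absurd rfl h
  · have : Resp {r0} L P D := by
      rcases h2.2.2.2 q P D hq hf with ⟨a, rfl, h⟩ | h
      · exact h3 q h P D hf
      · exact h
    obtain ⟨j, h4, h5⟩ := this
    exact ⟨j, h4, fun h => h5 ⟨_, rfl, h⟩⟩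

lemma adm_new {r p d : T} {l : List Bool} (hL : St l (pre r)) (hp : Prot (pre r) p d)
    (hr : ∀ P D, Fam r P D → ¬ ∀ j, Le p (D j)) : Adm p r := by
  refine ⟨hp.2.1.1.trans (Le.of_pre hp.1), fun q P D hq hf h => ?_⟩
  rcases hq.cases with rfl | ⟨a, ha, hqa⟩
  · exact hr P D hf h
  · by_cases e : a = d
    · exact hp.2.1.2 q P D (e ▸ hqa) hf h
    · exact hp.2.2 a ha e (((((hL.2 a ha).1.of_le hqa).1).root_le hf h).trans hqa)

lemma ext_plain {r0 u : T} (h0 : Valid r0) (hu : ¬ Le u r0) (ε : Bool) :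
    ∃ r, Valid r ∧ Le r0 r ∧ lab r0 ++ [ε] <+: lab r ∧ ¬ Le u r := by
  obtain ⟨L, h1, h2, h3, -, h5⟩ := build h0 (List.prefix_append (lab r0) [ε]) u
  obtain ⟨r, rfl, hl, ht, hf⟩ := mk_plain L h1.1 (lab r0 ++ [ε]) fun n => !(tag u n)
  refine ⟨r, ⟨r, ⟨fun a ha => hl ▸ (h1.2 a ha).2, fun P D h => absurd h (hf P D),
    fun q P D hq h => ?_⟩, fun a ha => (h1.2 a ha).1, fun P D _ h => absurd h (hf P D)⟩,
    Le.of_pre h2, hl ▸ List.prefix_rfl, fun h => ?_⟩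
  · rcases hq.cases with rfl | hq
    · exact absurd h (hf P D)
    · obtain ⟨j, h6, -⟩ := h5 q P D hq h
      exact ⟨j, h6.1, h6.2.2, adm_new h1 h6 fun P D h => absurd h (hf P D)⟩
  · rcases h.cases with rfl | h
    · have := congrFun ht 0
      simp at this
    · exact h3 hu h

lemma ext_fam {P D : ℕ → T} {l : List Bool} (hΔ : Delta P D)
    (h : ∀ j, Valid (D j) ∧ Adm (P j) (D j) ∧ lab (D j) <+: l) :
    ∃ q, Valid q ∧ Fam q P D ∧ lab q = l := by
  obtain ⟨L, h1, h2, -, h4, h5⟩ := build (h 0).1 (h 0).2.2 (P 0)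
  obtain ⟨r, rfl, hl, hf⟩ := mk_fam L h1.1 l P D
  refine ⟨r, ⟨r, ⟨fun a ha => hl ▸ (h1.2 a ha).2, fun P' D' h' => ?_, fun q P' D' hq h' => ?_⟩,
    fun a ha => (h1.2 a ha).1, fun P' D' j h' => ?_⟩, hf, hl⟩
  · obtain ⟨rfl, rfl⟩ := fam_fun hf h'
    exact ⟨hΔ, fun j => ⟨(h j).2.1, hl ▸ (h j).2.2⟩⟩
  · rcases hq.cases with rfl | hq
    · obtain ⟨rfl, rfl⟩ := fam_fun hf h'
      have h6 := h4 _ (h 0).2.1
      refine ⟨0, h6.1, h6.2.2, adm_new h1 h6 fun P' D' h'' => ?_⟩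
      obtain ⟨rfl, rfl⟩ := fam_fun hf h''
      exact hΔ.2 0
    · obtain ⟨j, h6, h7⟩ := h5 q P' D' hq h'
      refine ⟨j, h6.1, h6.2.2, adm_new h1 h6 fun P'' D'' h'' h8 => ?_⟩
      obtain ⟨rfl, rfl⟩ := fam_fun hf h''
      exact h7 (h8 0)
  · obtain ⟨rfl, rfl⟩ := fam_fun hf h'
    exact (h j).1

lemma leaf (z : ℕ → Bool) : ∃ r, Valid r ∧ tag r = z := by
  obtain ⟨r, h, -, ht, hf⟩ := mk_plain ∅ finite_empty [] z
  refine ⟨r, ⟨r, ⟨by simp [h], fun P D h => absurd h (hf P D), fun q P D hq h' => ?_⟩, by simp [h],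
    fun P D _ h => absurd h (hf P D)⟩, ht⟩
  rcases hq.cases with rfl | ⟨b, hb, -⟩
  · exact absurd h' (hf P D)
  · simp [h] at hb

def Inv (X : Set T) (p d : T) : Prop := Valid d ∧ Adm p d ∧ ∀ s, Le p s → Le s d → s ∈ X

lemma bad_countable {X : Set T} (hX : ∀ q, Valid q → ∃ a ∈ X, Valid a ∧ Le q a) (dd : T → T)
    (ε : Bool) : {p | Inv X p (dd p) ∧
      ¬ ∃ r, Inv X p r ∧ Le (dd p) r ∧ lab (dd p) ++ [ε] <+: lab r}.Countable := by
  by_contra hu
  obtain ⟨⟨t, n⟩, h1⟩ := unc_fiber hu fun p => (lab (dd p), (low_fin (dd p)).toFinset.card)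
  obtain ⟨S, hS, hSi, hSd⟩ := wdelta n (fun p => (low_fin (dd p)).toFinset) _
    (fun h => h1 (Set.Finite.countable h)) fun p hp => (Prod.mk.inj hp.2).2.le
  simp only [Finite.mem_toFinset, mem_ofPred_eq] at hSd
  obtain ⟨i0, hi0⟩ := hSi.nonempty
  have hS' := hSi.sdiff (low_fin (dd i0))
  let P : ℕ → T := fun j => hS'.natEmbedding _ j
  have hP : ∀ j, P j ∈ S \ {a | Le a (dd i0)} := fun j => (hS'.natEmbedding _ j).2
  have hPi : Injective P := Subtype.val_injective.comp (hS'.natEmbedding _).injective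
  have hfin : ∀ a, {i | i ∈ S ∧ Le a (dd i)}.Finite → {j | Le a (dd (P j))}.Finite :=
    fun a h => (h.preimage hPi.injOn).subset fun j hj => ⟨(hP j).1, hj⟩
  obtain ⟨q, hq, hf, hl⟩ := ext_fam (P := P) (D := fun j => dd (P j)) (l := t ++ [ε])
    ⟨fun a => (hSd a).imp (fun h j => h _ (hP j).1) (hfin a), fun j h => by
      rcases hSd (P j) with h2 | h2
      · exact (hP j).2 (h2 i0 hi0)
      · exact Set.infinite_univ ((hfin _ h2).subset fun i _ => h i)⟩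
    (fun j => ⟨(hS (hP j).1).1.1.1, (hS (hP j).1).1.1.2.1, by
      rw [(Prod.mk.inj (hS (hP j).1).2).1]
      exact List.prefix_append _ _⟩)
  obtain ⟨r, hr, hrv, hqr⟩ := hX q hq
  obtain ⟨j, h2, h3, h4⟩ := hrv.good.2.2 q _ _ hqr hf
  refine (hS (hP j).1).1.2 ⟨r, ⟨hrv, h4, fun s h5 h6 => ?_⟩, Le.of_pre h2, ?_⟩
  · rcases h6.cases with rfl | ⟨a, ha, hs⟩
    · exact hr
    · by_cases e : a = dd (P j)
      · exact (hS (hP j).1).1.1.2.2 s h5 (e ▸ hs)
      · exact absurd (h5.trans hs) (h3 a ha e)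
  · rw [(Prod.mk.inj (hS (hP j).1).2).1, ← hl]
    exact (hrv.of_le hqr).2

def IsCfg (C : List Bool → T) : Prop :=
  (∀ σ, Valid (C σ)) ∧ ∀ σ ε, Le (C σ) (C (ε :: σ)) ∧ lab (C σ) ++ [ε] <+: lab (C (ε :: σ))

lemma mk_cfg (I : T → Prop) (p : T) (hp : I p) (hv : ∀ d, I d → Valid d)
    (nx : T → Bool → T) (tr : List Bool → T) (h0 : tr [] = p)
    (h1 : ∀ σ ε, tr (ε :: σ) = nx (tr σ) ε)
    (h : ∀ σ ε, I (tr σ) → I (nx (tr σ) ε) ∧ Le (tr σ) (nx (tr σ) ε) ∧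
      lab (tr σ) ++ [ε] <+: lab (nx (tr σ) ε)) : IsCfg tr ∧ ∀ σ, I (tr σ) := by
  have key : ∀ σ, I (tr σ) := by
    intro σ
    induction σ with
    | nil => exact h0 ▸ hp
    | cons ε σ ih => rw [h1]; exact (h σ ε ih).1
  exact ⟨⟨fun σ => hv _ (key σ), fun σ ε => by rw [h1]; exact (h σ ε (key σ)).2⟩, key⟩

lemma cfg_avoid {a u : T} (ha : Valid a) (hu : ¬ Le u a) :
    ∃ C, IsCfg C ∧ C [] = a ∧ ∀ σ, ¬ Le u (C σ) := by
  classical
  have : ∀ d ε, ∃ r, Valid d ∧ ¬ Le u d →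
      (Valid r ∧ ¬ Le u r) ∧ Le d r ∧ lab d ++ [ε] <+: lab r := by
    intro d ε
    by_cases h : Valid d ∧ ¬ Le u d
    · obtain ⟨r, h1, h2, h3, h4⟩ := ext_plain h.1 h.2 ε
      exact ⟨r, fun _ => ⟨⟨h1, h4⟩, h2, h3⟩⟩
    · exact ⟨d, fun h' => absurd h' h⟩
  choose nx hnx using this
  obtain ⟨h1, h2⟩ := mk_cfg (fun d => Valid d ∧ ¬ Le u d) a ⟨ha, hu⟩ (fun _ h => h.1) nx
    (fun σ => σ.foldr (fun ε d => nx d ε) a) rfl (fun _ _ => rfl) (fun σ ε h => hnx _ ε h)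
  exact ⟨_, h1, rfl, fun σ => (h2 σ).2⟩

lemma cfg_in {X : Set T} (hX : ∀ q, Valid q → ∃ a ∈ X, Valid a ∧ Le q a) :
    ∃ C, IsCfg C ∧ ∀ σ s, Le (C []) s → Le s (C σ) → s ∈ X := by
  classical
  have : ∀ p d ε, ∃ r, (∃ r, Inv X p r ∧ Le d r ∧ lab d ++ [ε] <+: lab r) →
      Inv X p r ∧ Le d r ∧ lab d ++ [ε] <+: lab r := by
    intro p d ε
    by_cases h : ∃ r, Inv X p r ∧ Le d r ∧ lab d ++ [ε] <+: lab r
    · obtain ⟨r, hr⟩ := h
      exact ⟨r, fun _ => hr⟩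
    · exact ⟨d, fun h' => absurd h' h⟩
  choose nx hnx using this
  let tr : T → List Bool → T := fun p σ => σ.foldr (fun ε d => nx p d ε) p
  have hc := countable_iUnion fun x : List Bool × Bool => bad_countable hX (fun p => tr p x.1) x.2
  have hu : ¬ {a | a ∈ X ∧ Valid a}.Countable := by
    intro h
    have h1 := (h.biUnion fun a _ => (low_fin a).countable).image tag
    have h2 : (univ : Set (ℕ → Bool)).Countable := by
      refine h1.mono fun z _ => ?_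
      obtain ⟨r, hr, rfl⟩ := leaf z
      obtain ⟨a, h3, h4, h5⟩ := hX r hr
      exact ⟨r, mem_biUnion (⟨h3, h4⟩ : a ∈ {a | a ∈ X ∧ Valid a}) h5, rfl⟩
    have h3 := Cardinal.mk_le_aleph0_iff.2 (countable_univ_iff.1 h2)
    simp only [mk_pi, mk_fintype, Fintype.card_bool, Nat.cast_ofNat, prod_const, mk_nat,
      lift_aleph0, lift_ofNat, two_power_aleph0] at h3
    exact absurd h3 (not_le.2 Cardinal.aleph0_lt_continuum)
  obtain ⟨p, hp, hp'⟩ := not_subset.1 fun h => hu (hc.mono h)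
  have h0 : Inv X p p := by
    refine ⟨hp.2, hp.2.adm, fun s h1 h2 => ?_⟩
    rcases h2.cases with rfl | ⟨a, ha, hs⟩
    · exact hp.1
    · exact absurd (h1.trans hs) (not_le_pre ha)
  obtain ⟨h1, h2⟩ := mk_cfg (Inv X p) p h0 (fun _ h => h.1) (nx p) (tr p) rfl (fun _ _ => rfl)
    (fun σ ε h => hnx _ _ _ (by
      by_contra hn
      exact hp' (mem_iUnion.2 ⟨(σ, ε), h, hn⟩)))
  exact ⟨_, h1, fun σ => (h2 σ).2.2⟩

end Pool.Agent.H.MP_42a2a8_gt
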